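import Pool.Agent.Helper74.HG.GoalsD
import Pool.Agent.Helper84.HG.WD

/-!
# Project HG (MP_aa7fc1_ag): packet HG-MAT (disjoint triples)
-/

namespace Pool.Agent.Helper73.HG.MAT

open MvPolynomial Pool.Agent.Helper74.HG Pool.Agent.Helper84.HG.WD

noncomputable section

/-- The indicator. -/
def ind (p : Prop) : ℕ := @ite _ p (Classical.propDecidable p) 1 0

theorem ind_t {p : Prop} (h : p) : ind p = 1 := by
  unfold ind
  exact if_pos h

theorem ind_f {p : Prop} (h : ¬ p) : ind p = 0 := by
  unfold ind
  exact if_neg h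

/-- The number of edges `e` which contain `i` with `P |e|`. -/
def D {σ : Type} (P : ℕ → Prop) (H : Finset (Finset σ)) (i : σ) : ℕ :=
  ∑ e ∈ H, ind (i ∈ e ∧ P e.card)

theorem D_ins {σ : Type} (P : ℕ → Prop) {H : Finset (Finset σ)} {e : Finset σ} (he : e ∉ H)
    (i : σ) : D P (ins e H) i = ind (i ∈ e ∧ P e.card) + D P H i := by
  let _ := Classical.decEq (Finset σ)
  exact Finset.sum_insert he

theorem D_up {σ : Type} (P : ℕ → Prop) (H : Finset (Finset σ)) (i : σ) :
    D P (upH H) (em σ i) = D P H i := by
  unfold D upH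
  rw [Finset.sum_map]
  refine Finset.sum_congr rfl fun e _ => ?_
  show ind (em σ i ∈ e.map (em σ) ∧ P (e.map (em σ)).card) = _
  rw [Finset.mem_map', Finset.card_map]

theorem D_none {σ : Type} (P : ℕ → Prop) (H : Finset (Finset σ)) :
    D P (upH H) none = 0 := by
  unfold D
  refine Finset.sum_eq_zero fun e he => ?_
  exact ind_f fun h => (none_not_mem he).1 h.1

theorem D_snone {σ : Type} (P : ℕ → Prop) (H : Finset (Finset σ)) :
    D P (upH H) (some none) = 0 := by
  unfold D
  refine Finset.sum_eq_zero fun e he => ?_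
  exact ind_f fun h => (none_not_mem he).2 h.1

theorem D_H1 {σ : Type} (P : ℕ → Prop) (H : Finset (Finset σ)) (x : σ)
    (v : Option (Option σ)) : D P (H1 H x) v =
      ind ((v = em σ x ∨ v = some none) ∧ P 2) + (ind ((v = none ∨ v = some none) ∧ P 2) +
        D P (upH H) v) := by
  unfold H1
  rw [D_ins P (il_not_mem H x)]
  unfold H0
  rw [D_ins P (wl_not_mem H), mem_pr, mem_pr, card_pr none_ne, card_pr (em_ne x)]

theorem D_H1_none {σ : Type} (P : ℕ → Prop) (H : Finset (Finset σ)) (x : σ) :
    D P (H1 H x) none = ind (P 2) := by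
  rw [D_H1, D_none]
  by_cases h : P 2
  · rw [ind_f (p := (none = em σ x ∨ none = some none) ∧ P 2), ind_t (p := P 2) h, ind_t]
    · exact ⟨Or.inl rfl, h⟩
    · rintro ⟨h1 | h1, _⟩ <;> cases h1
  · rw [ind_f (p := P 2) h, ind_f fun h' => h h'.2, ind_f fun h' => h h'.2]

theorem D_H1_snone {σ : Type} (P : ℕ → Prop) (H : Finset (Finset σ)) (x : σ) :
    D P (H1 H x) (some none) = 2 * ind (P 2) := by
  rw [D_H1, D_snone]
  by_cases h : P 2
  · rw [ind_t (p := P 2) h, ind_t ⟨Or.inr rfl, h⟩, ind_t ⟨Or.inr rfl, h⟩]
  · rw [ind_f (p := P 2) h, ind_f fun h' => h h'.2, ind_f fun h' => h h'.2]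

theorem D_H1_em {σ : Type} (P : ℕ → Prop) (H : Finset (Finset σ)) (x i : σ) :
    D P (H1 H x) (em σ i) = ind (i = x ∧ P 2) + D P H i := by
  rw [D_H1, D_up, ind_f (p := (em σ i = none ∨ em σ i = some none) ∧ P 2), zero_add]
  · congr 2
    apply propext
    constructor
    · rintro ⟨h | h, h'⟩
      · exact ⟨(em σ).injective h, h'⟩
      · cases h
    · rintro ⟨h, h'⟩
      exact ⟨Or.inl (h ▸ rfl), h'⟩
  · rintro ⟨h1 | h1, _⟩ <;> cases h1

/-- The new hypergraph. -/
def NH {σ : Type} (G : Finset (Finset σ)) (x y z : σ) :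
    Finset (Finset (Option (Option (Option (Option σ))))) :=
  ins (toF [none, em _ (em σ y), em _ (em σ z)]) (H1 (H1 G x) none)

theorem e3_not_mem {σ : Type} (G : Finset (Finset σ)) (x y z : σ) :
    toF [none, em _ (em σ y), em _ (em σ z)] ∉ H1 (H1 G x) none := by
  have hln : (some none : Option (Option (Option (Option σ)))) ∉
      toF [none, em _ (em σ y), em _ (em σ z)] := by
    rw [mem_toF]
    simp [em_apply]
  intro h
  unfold H1 at h
  rcases mem_ins.1 h with h | h
  · rw [h] at hln
    exact hln (mem_pr.2 (Or.inr rfl))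
  · rcases mem_ins.1 h with h | h
    · rw [h] at hln
      exact hln (mem_pr.2 (Or.inr rfl))
    · exact (none_not_mem h).1 (mem_toF.2 (List.mem_cons_self ..))

theorem nd {σ : Type} {y z : σ} (h : y ≠ z) :
    [(none : Option (Option (Option (Option σ)))), em _ (em σ y), em _ (em σ z)].Nodup := by
  simp [em_apply, h]

theorem c3 {σ : Type} {y z : σ} (h : y ≠ z) :
    (toF [(none : Option (Option (Option (Option σ)))), em _ (em σ y), em _ (em σ z)]).card = 3 := by
  rw [card_toF (nd h)]
  rfl

theorem D_NH {σ : Type} (P : ℕ → Prop) (G : Finset (Finset σ)) (x : σ) {y z : σ} (h : y ≠ z)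
    (v : Option (Option (Option (Option σ)))) :
    D P (NH G x y z) v = ind (v ∈ [none, em _ (em σ y), em _ (em σ z)] ∧ P 3) +
      D P (H1 (H1 G x) none) v := by
  unfold NH
  rw [D_ins P (e3_not_mem G x y z), c3 h, mem_toF]

theorem D_NH_em {σ : Type} (P : ℕ → Prop) (G : Finset (Finset σ)) (x : σ) {y z : σ} (h : y ≠ z)
    (i : σ) :
    D P (NH G x y z) (em _ (em σ i)) = ind ((i = y ∨ i = z) ∧ P 3) +
      (ind (i = x ∧ P 2) + D P G i) := by
  rw [D_NH P G x h, D_H1_em, D_H1_em, ind_f (p := em σ i = none ∧ P 2), zero_add]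
  · congr 2
    simp [em_apply]
  · rintro ⟨h1, _⟩
    cases h1

theorem D_NH_none {σ : Type} (P : ℕ → Prop) (G : Finset (Finset σ)) (x : σ) {y z : σ} (h : y ≠ z) :
    D P (NH G x y z) none = ind (P 3) + ind (P 2) := by
  rw [D_NH P G x h, D_H1_none]
  congr 2
  simp

theorem D_NH_snone {σ : Type} (P : ℕ → Prop) (G : Finset (Finset σ)) (x : σ) {y z : σ}
    (h : y ≠ z) : D P (NH G x y z) (some none) = 2 * ind (P 2) := by
  rw [D_NH P G x h, D_H1_snone, ind_f, zero_add]
  rintro ⟨h1, _⟩
  simp [em_apply] at h1

theorem D_NH_en {σ : Type} (P : ℕ → Prop) (G : Finset (Finset σ)) (x : σ) {y z : σ}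
    (h : y ≠ z) : D P (NH G x y z) (some (some none)) = 2 * ind (P 2) := by
  have h0 : (some (some none) : Option (Option (Option (Option σ)))) = em _ none := rfl
  rw [D_NH P G x h, h0, D_H1_em, D_H1_none, ind_f, zero_add]
  · have : ind ((none : Option (Option σ)) = none ∧ P 2) = ind (P 2) := by
      congr 1
      simp
    rw [this]
    ring
  · rintro ⟨h1, _⟩
    simp [em_apply] at h1

theorem D_NH_esn {σ : Type} (P : ℕ → Prop) (G : Finset (Finset σ)) (x : σ) {y z : σ}
    (h : y ≠ z) : D P (NH G x y z) (some (some (some none))) = 2 * ind (P 2) := by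
  have h0 : (some (some (some none)) : Option (Option (Option (Option σ)))) = em _ (some none) := rfl
  rw [D_NH P G x h, h0, D_H1_em, D_H1_snone, ind_f, zero_add, ind_f, zero_add]
  · rintro ⟨h1, _⟩
    cases h1
  · rintro ⟨h1, _⟩
    simp [em_apply] at h1

theorem D_split {σ : Type} (P : ℕ → Prop) (G : Finset (Finset σ)) {x y z : σ} (hxy : x ≠ y)
    (hxz : x ≠ z) (hyz : y ≠ z) (hG : toF [x, y, z] ∉ G) (i : σ) :
    D P (ins (toF [x, y, z]) G) i = ind ((i = y ∨ i = z) ∧ P 3) + (ind (i = x ∧ P 3) + D P G i) := by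
  rw [D_ins P hG, mem_toF, card_toF (by simp [hxy, hxz, hyz])]
  show ind (i ∈ [x, y, z] ∧ P 3) + _ = _
  by_cases h3 : P 3
  · by_cases hx : i = x
    · rw [ind_t (p := i = x ∧ P 3) ⟨hx, h3⟩, ind_t ⟨by simp [hx], h3⟩, ind_f]
      · omega
      · rintro ⟨h | h, _⟩
        · exact hxy (hx.symm.trans h)
        · exact hxz (hx.symm.trans h)
    · rw [ind_f (p := i = x ∧ P 3) (fun h => hx h.1), zero_add]
      congr 2
      simp [hx]
  · rw [ind_f fun h => h3 h.2, ind_f fun h => h3 h.2, ind_f fun h => h3 h.2]
    omega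

theorem red_NH (htr : TRA) (hst : STE) {σ : Type} (G : Finset (Finset σ)) {x y z : σ}
    (hxy : x ≠ y) (hxz : x ≠ z) (hyz : y ≠ z) (hG : toF [x, y, z] ∉ G) :
    Red (hyp (ins (toF [x, y, z]) G)) (hyp (NH G x y z)) := by
  have e1 : hyp (ins (toF [x, y, z]) G) = hyp G + (((1, x :: [y, z]) :: []).map wp).sum := by
    have e0 : (((1, x :: [y, z]) :: []).map wp).sum = wp ((1 : ℤ), [x, y, z]) := by
      simp
    rw [hyp_ins hG, prod_toF (by simp [hxy, hxz, hyz]), e0]
    unfold wp
    rw [C_1]
    ring
  have e2 : hyp (NH G x y z) = hyp (H1 (H1 G x) none) +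
      (((- -1, none :: ([em σ y, em σ z].map (em _))) :: upL (upL [])).map wp).sum := by
    unfold NH
    rw [hyp_ins (e3_not_mem G x y z), prod_toF (nd hyz)]
    have e3 : (((- -1, none :: ([em σ y, em σ z].map (em _))) :: upL (upL [])).map wp).sum =
        wp ((- -1 : ℤ), [(none : Option (Option (Option (Option σ)))), em _ (em σ y),
          em _ (em σ z)]) := by
      simp [upL]
    rw [e3]
    unfold wp
    rw [neg_neg, C_1]
    ring
  rw [e1, e2]
  refine htr _ _ _ (S1 hst G [] 1 x [y, z] (by simp)) ?_
  exact S1 hst (H1 G x) (upL []) (-1) none [em σ y, em σ z] (by simp)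

/-- The measure. -/
def mu {σ : Type} [Fintype σ] (H : Finset (Finset σ)) : ℕ :=
  ∑ i : σ, (D (fun k => k = 3) H i - 1)

theorem D_card {σ : Type} (P : ℕ → Prop) (H : Finset (Finset σ)) (i : σ)
    [DecidablePred fun e : Finset σ => i ∈ e ∧ P e.card] :
    D P H i = (H.filter (fun e => i ∈ e ∧ P e.card)).card := by
  unfold D ind
  rw [Finset.card_filter]
  refine Finset.sum_congr rfl fun e _ => ?_
  congr

theorem sub3_iff {σ : Type} (H : Finset (Finset σ)) :
    Sub3 H ↔ ∀ i, D (fun _ => True) H i ≤ 3 := by
  classical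
  unfold Sub3
  refine forall_congr' fun i => ?_
  rw [D_card]
  simp only [and_true]

theorem main (htr : TRA) (hst : STE) (his : ISO) : ∀ (n : ℕ) (σ : Type) [Fintype σ]
    (H : Finset (Finset σ)), Cub H → Sub3 H → mu H ≤ n →
    ∃ (τ : Type) (_ : Fintype τ) (H' : Finset (Finset τ)), Cub H' ∧ Sub3 H' ∧ Mat3 H' ∧
      Red (hyp H) (hyp H') := by
  intro n
  induction n using Nat.strong_induction_on with
  | _ n ih =>
    intro σ _ H hH hS hn
    classical
    by_cases hM : Mat3 H
    · exact ⟨σ, inferInstance, H, hH, hS, hM,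
        his AlgEquiv.refl (fun i => constantCoeff_X _ i) (hyp H)⟩
    · unfold Mat3 at hM
      push Not at hM
      obtain ⟨e₁, h1, e₂, h2, hc1, hc2, hne, hd⟩ := hM
      rw [Finset.not_disjoint_iff] at hd
      obtain ⟨x, hx1, hx2⟩ := hd
      have hc : (e₂.erase x).card = 2 := by
        rw [Finset.card_erase_of_mem hx2, hc2]
      obtain ⟨y, z, hyz, he⟩ := Finset.card_eq_two.1 hc
      have hy : y ∈ e₂.erase x := by
        rw [he]
        simp
      have hz : z ∈ e₂.erase x := by
        rw [he]
        simp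
      have hxy : x ≠ y := (Finset.ne_of_mem_erase hy).symm
      have hxz : x ≠ z := (Finset.ne_of_mem_erase hz).symm
      have hE : e₂ = toF [x, y, z] := by
        rw [← Finset.insert_erase hx2, he]
        ext v
        rw [mem_toF]
        simp
      set G := H.erase e₂ with hGdef
      have hG : toF [x, y, z] ∉ G := by
        rw [← hE, hGdef]
        exact Finset.notMem_erase _ _
      have hHG : H = ins (toF [x, y, z]) G := by
        ext e
        rw [mem_ins, ← hE, hGdef, Finset.mem_erase]
        constructor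
        · intro h
          by_cases hee : e = e₂
          · exact Or.inl hee
          · exact Or.inr ⟨hee, h⟩
        · rintro (rfl | h)
          · exact h2
          · exact h.2
      have hcub : Cub (NH G x y z) := by
        unfold NH
        refine cub_ins (cub_H1 (cub_H1 ?_ x) none) (Or.inr (c3 hyz))
        intro e he
        exact hH e (Finset.mem_of_mem_erase he)
      have hsub : Sub3 (NH G x y z) := by
        rw [sub3_iff] at hS ⊢
        intro v
        match v with
        | none =>
          rw [D_NH_none _ G x hyz, ind_t trivial]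
          omega
        | some none =>
          rw [D_NH_snone _ G x hyz, ind_t trivial]
          omega
        | some (some none) =>
          rw [D_NH_en _ G x hyz, ind_t trivial]
          omega
        | some (some (some none)) =>
          rw [D_NH_esn _ G x hyz, ind_t trivial]
          omega
        | some (some (some (some i))) =>
          have h1 := D_NH_em (fun _ => True) G x hyz i
          rw [em_apply, em_apply] at h1
          have h2 := hS i
          rw [hHG, D_split _ G hxy hxz hyz hG] at h2
          rw [h1]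
          exact h2
      have hmu : mu (NH G x y z) < mu H := by
        have hx : 2 ≤ D (fun k => k = 3) H x := by
          rw [D_card]
          have hsub : ({e₁, e₂} : Finset (Finset σ)) ⊆
              H.filter (fun e => x ∈ e ∧ (fun k => k = 3) e.card) := by
            intro e he
            rw [Finset.mem_insert, Finset.mem_singleton] at he
            rw [Finset.mem_filter]
            rcases he with rfl | rfl
            · exact ⟨h1, hx1, hc1⟩
            · exact ⟨h2, hx2, hc2⟩
          have := Finset.card_le_card hsub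
          rw [Finset.card_pair hne] at this
          exact this
        have hsum : mu (NH G x y z) =
            ∑ i : σ, (D (fun k => k = 3) (NH G x y z) (em _ (em σ i)) - 1) := by
          unfold mu
          rw [Fintype.sum_option, Fintype.sum_option, Fintype.sum_option, Fintype.sum_option]
          rw [D_NH_none _ G x hyz, D_NH_snone _ G x hyz, D_NH_en _ G x hyz, D_NH_esn _ G x hyz,
            ind_f (p := (2 : ℕ) = 3) (by omega), ind_t (p := (3 : ℕ) = 3) rfl]
          simp [em_apply]
        rw [hsum]
        unfold mu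
        have hle : ∀ i : σ, D (fun k => k = 3) (NH G x y z) (em _ (em σ i)) +
            ind (i = x) = D (fun k => k = 3) H i := by
          intro i
          rw [D_NH_em _ G x hyz]
          conv_rhs => rw [hHG]
          rw [D_split _ G hxy hxz hyz hG, ind_f (p := i = x ∧ 2 = 3) (by omega)]
          have : ind (i = x ∧ 3 = 3) = ind (i = x) := by
            congr 1
            simp
          rw [this]
          omega
        refine Finset.sum_lt_sum (fun i _ => ?_) ⟨x, Finset.mem_univ _, ?_⟩
        · have := hle i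
          omega
        · have := hle x
          rw [ind_t rfl] at this
          omega
      obtain ⟨τ, i, H', k1, k2, k3, k4⟩ := ih (mu (NH G x y z)) (by omega) _ _ hcub hsub le_rfl
      refine ⟨τ, i, H', k1, k2, k3, htr _ _ _ ?_ k4⟩
      rw [hHG]
      exact red_NH htr hst G hxy hxz hyz hG

end

/-- Packet HG-MAT. -/
theorem t (htr : TRA) (hst : STE) (his : ISO) : MAT := by
  intro σ _ H hH hS
  exact main htr hst his (mu H) σ H hH hS le_rfl

end Pool.Agent.Helper73.HG.MAT
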