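import Pool.Agent.Helper74.HG.GoalsC

/-!
# Project HG, packet BID: the ideal of the Bernstein-Sato multiples is principal
-/

set_option autoImplicit false

open MvPolynomial

namespace Pool.Agent.Helper73.HG.BID

open Pool.Agent.Helper74.HG

variable {σ : Type}

/-- multiplication by a polynomial is in `D[s]` -/
theorem mulLeft_mem (h : MvPolynomial σ ℂ) :
    (fun _ : ℂ => LinearMap.mulLeft ℂ h) ∈ DSk ℂ σ := by
  induction h using MvPolynomial.induction_on with
  | C a =>
    have : (fun _ : ℂ => LinearMap.mulLeft ℂ (C a : MvPolynomial σ ℂ)) =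
        algebraMap ℂ (ℂ → Module.End ℂ (MvPolynomial σ ℂ)) a := by
      funext s
      refine LinearMap.ext fun p => ?_
      rw [Pi.algebraMap_apply, Algebra.algebraMap_eq_smul_one, LinearMap.smul_apply,
        MvPolynomial.smul_eq_C_mul]
      rfl
    rw [this]
    exact Subalgebra.algebraMap_mem _ a
  | add p q hp hq =>
    have : (fun _ : ℂ => LinearMap.mulLeft ℂ (p + q)) =
        (fun _ : ℂ => LinearMap.mulLeft ℂ p) + (fun _ : ℂ => LinearMap.mulLeft ℂ q) := by
      funext s
      refine LinearMap.ext fun x => ?_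
      exact add_mul p q x
    rw [this]
    exact Subalgebra.add_mem _ hp hq
  | mul_X p i hp =>
    have : (fun _ : ℂ => LinearMap.mulLeft ℂ (p * X i)) =
        (fun _ : ℂ => LinearMap.mulLeft ℂ p) *
          (fun _ : ℂ => LinearMap.mulLeft ℂ (X i : MvPolynomial σ ℂ)) := by
      funext s
      refine LinearMap.ext fun x => ?_
      exact mul_assoc p (X i) x
    rw [this]
    refine Subalgebra.mul_mem _ hp (Algebra.subset_adjoin ?_)
    exact Or.inl (Or.inl ⟨i, rfl⟩)

/-- the scalar operator `r(s)` is in `D[s]` -/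
theorem poly_mem (r : Polynomial ℂ) :
    (fun s : ℂ => (r.eval s) • (1 : Module.End ℂ (MvPolynomial σ ℂ))) ∈ DSk ℂ σ := by
  have hS : (fun s : ℂ => s • (1 : Module.End ℂ (MvPolynomial σ ℂ))) ∈ DSk ℂ σ :=
    Algebra.subset_adjoin (Or.inr rfl)
  have h1 : Polynomial.aeval (fun s : ℂ => s • (1 : Module.End ℂ (MvPolynomial σ ℂ))) r ∈
      DSk ℂ σ := by
    have := Polynomial.aeval_subalgebra_coe r (DSk ℂ σ) ⟨_, hS⟩
    rw [← this]
    exact Subtype.property _
  have h2 : Polynomial.aeval (fun s : ℂ => s • (1 : Module.End ℂ (MvPolynomial σ ℂ))) r =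
      (fun s : ℂ => (r.eval s) • (1 : Module.End ℂ (MvPolynomial σ ℂ))) := by
    funext s
    have h3 := Polynomial.aeval_algHom_apply
      (Pi.evalAlgHom ℂ (fun _ : ℂ => Module.End ℂ (MvPolynomial σ ℂ)) s)
      (fun s : ℂ => s • (1 : Module.End ℂ (MvPolynomial σ ℂ))) r
    have h4 : Polynomial.aeval (s • (1 : Module.End ℂ (MvPolynomial σ ℂ))) r =
        (r.eval s) • (1 : Module.End ℂ (MvPolynomial σ ℂ)) := by
      have := Polynomial.aeval_algebraMap_apply (Module.End ℂ (MvPolynomial σ ℂ)) s r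
      rw [Algebra.algebraMap_eq_smul_one, Algebra.algebraMap_eq_smul_one] at this
      rw [this]
      rfl
    exact h3.symm.trans h4
  rw [← h2]
  exact h1

/-- the ideal -/
def I (f : MvPolynomial σ ℂ) : Ideal (Polynomial ℚ) where
  carrier := {b | IsBk ℂ f b}
  zero_mem' := by
    refine ⟨0, Subalgebra.zero_mem _, 1, by simp, fun N => by simp⟩
  add_mem' := by
    rintro a b ⟨P, hP, h, hh, hPe⟩ ⟨Q, hQ, g, hg, hQe⟩
    refine ⟨(fun _ : ℂ => LinearMap.mulLeft ℂ g) * P + (fun _ : ℂ => LinearMap.mulLeft ℂ h) * Q,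
      Subalgebra.add_mem _ (Subalgebra.mul_mem _ (mulLeft_mem g) hP)
        (Subalgebra.mul_mem _ (mulLeft_mem h) hQ), h * g, ?_, fun N => ?_⟩
    · rw [map_mul]
      exact mul_ne_zero hh hg
    · show g * (P (N : ℂ)) (f ^ (N + 1)) + h * (Q (N : ℂ)) (f ^ (N + 1)) = _
      rw [hPe, hQe, Polynomial.eval_add, map_add, map_add]
      ring
  smul_mem' := by
    rintro r b ⟨P, hP, h, hh, hPe⟩
    refine ⟨(fun s : ℂ => ((r.map (algebraMap ℚ ℂ)).eval s) •
        (1 : Module.End ℂ (MvPolynomial σ ℂ))) * P,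
      Subalgebra.mul_mem _ (poly_mem _) hP, h, hh, fun N => ?_⟩
    show ((r.map (algebraMap ℚ ℂ)).eval (N : ℂ)) • (P (N : ℂ)) (f ^ (N + 1)) = _
    rw [hPe, smul_eq_mul, Polynomial.eval_mul, map_mul, map_mul, MvPolynomial.smul_eq_C_mul,
      Polynomial.eval_natCast_map]
    ring

theorem t : Pool.Agent.Helper74.HG.BID := by
  intro σ f
  obtain ⟨b₀, hb⟩ := (IsPrincipalIdealRing.principal (I f)).principal
  refine ⟨b₀, ?_, fun b hbk => ?_⟩
  · have : b₀ ∈ I f := by
      rw [hb]
      exact Submodule.mem_span_singleton_self b₀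
    exact this
  · have : b ∈ I f := hbk
    rw [hb] at this
    exact Ideal.mem_span_singleton.1 this

end Pool.Agent.Helper73.HG.BID
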